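import Pool.Agent.P.MP_0c5457_lc.Fix

set_option autoImplicit false

/-! An equilibrium of potentials and flows, obtained from a fixed point in a box. -/

namespace Pool.Agent.P.MP_5c5cb0_co

open Finset

/-- A continuous field on a box has a point where it pushes only against the walls. -/
theorem exists_wall {I : Type} [Fintype I] (m : I → ℝ) (hm : ∀ i, 0 ≤ m i)
    (G : (I → ℝ) → I → ℝ) (hG : Continuous G) :
    ∃ z : I → ℝ, (∀ i, 0 ≤ z i ∧ z i ≤ m i) ∧ (∀ i, 0 < G z i → z i = m i) ∧
      ∀ i, G z i < 0 → z i = 0 := by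
  classical
  let Z : ((I → Bool) → ℝ) → I → ℝ := fun x i => m i * ∑ s, if s i = true then x s else 0
  have hZ : Continuous Z := continuous_pi fun i => continuous_const.mul
    (continuous_finsetSum _ fun s _ => by split_ifs <;> fun_prop)
  obtain ⟨x, ⟨h0, h1⟩, h⟩ := Pool.Agent.P.MP_0c5457_lc.exists_argmax
    (fun x (s : I → Bool) => ∑ i, if s i = true then G (Z x) i else 0)
    (Continuous.continuousOn (continuous_pi fun s => continuous_finsetSum _ fun i _ => by
      split_ifs
      · exact (continuous_apply i).comp (hG.comp hZ)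
      · exact continuous_const))
  have key : ∀ s i (t : Bool), 0 < x s →
      (if t = true then G (Z x) i else 0) ≤ if s i = true then G (Z x) i else 0 := by
    intro s i t hs
    have h2 := h s (Function.update s i t) hs
    rw [← Finset.add_sum_erase _ _ (mem_univ i), ← Finset.add_sum_erase _ _ (mem_univ i),
      Function.update_self, Finset.sum_congr rfl fun j hj => by
        rw [Function.update_of_ne (ne_of_mem_erase hj)]] at h2
    exact le_of_add_le_add_right h2
  refine ⟨Z x, fun i => ⟨mul_nonneg (hm i) (sum_nonneg fun s _ => ?_),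
    mul_le_of_le_one_right (hm i) (h1 ▸ sum_le_sum fun s _ => ?_)⟩, fun i hi => ?_, fun i hi => ?_⟩
  · split_ifs
    exacts [h0 s, le_rfl]
  · split_ifs
    exacts [le_rfl, h0 s]
  · have : (∑ s, if s i = true then x s else 0) = 1 := h1 ▸ sum_congr rfl fun s _ => by
      split_ifs with hs
      · rfl
      · by_contra hne
        have := key s i true (lt_of_le_of_ne (h0 s) hne)
        rw [if_pos rfl, if_neg hs] at this
        linarith
    simp only [Z, this, mul_one]
  · have : (∑ s, if s i = true then x s else 0) = 0 := sum_eq_zero fun s _ => by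
      split_ifs with hs
      · by_contra hne
        have := key s i false (lt_of_le_of_ne (h0 s) (Ne.symm hne))
        rw [if_pos hs, if_neg Bool.false_ne_true] at this
        linarith
      · rfl
    simp only [Z, this, mul_zero]

/-- Potentials `a ≤ b` and a flow `μ` in equilibrium: the arcs from the parents are respected, and
the other arcs of `H` are respected at every vertex with `a < b`. -/
theorem exists_flow {V : Type} [Fintype V] (H : V → V → Prop) (par : V → Option V)
    (hp : ∀ x y, par y = some x → H x y) (hi : ∀ x, ¬ H x x) (k n : ℝ) (hk : 0 ≤ k) (hn : 0 ≤ n) :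
    ∃ (a b : V → ℝ) (μ : V → V → ℝ), (∀ x, 0 ≤ a x ∧ a x ≤ b x ∧ b x ≤ a x + 1 ∧ b x ≤ k) ∧
      (∀ x y, par y = some x → b x ≤ a y) ∧ (∀ x y, H x y → a y < b y → b x ≤ a y) ∧
      (∀ x y, 0 ≤ μ x y) ∧
      (∀ x y, 0 < μ x y → (H x y ∧ a y ≤ b x) ∨ (y = x ∧ b x = a x + 1)) ∧
      (∀ x, b x < k → n ≤ ∑ y, μ x y) ∧ (∀ x, 0 < b x → ∑ y, μ x y ≤ n) ∧
      (∀ y, a y < k → ∑ x, μ x y ≤ n + 1) ∧ ∀ y, 0 < a y → n + 1 ≤ ∑ x, μ x y := by
  classical
  let g : (V → ℝ) → (V → ℝ) → V → V → ℝ := fun a b x y =>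
    if y = x then b x - 1 - a x else if par y = some x then b x - a y
      else if H x y then min (b x) (b y) - a y else -1
  let G : ((V × V) ⊕ V ⊕ V → ℝ) → (V × V) ⊕ V ⊕ V → ℝ := fun z => Sum.elim
    (fun e => g (fun v => z (.inr (.inl v))) (fun v => z (.inr (.inr v))) e.1 e.2)
    (Sum.elim (fun y => ∑ x, z (.inl (x, y)) - (n + 1)) fun x => n - ∑ y, z (.inl (x, y)))
  obtain ⟨z, h0, h1, h2⟩ := exists_wall (Sum.elim (fun _ => n + 1) fun _ => k)
    (by rintro (e | v) <;> simp only [Sum.elim_inl, Sum.elim_inr] <;> linarith) G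
    (continuous_pi (by
      rintro (e | v | v) <;> simp only [G, g, Sum.elim_inl, Sum.elim_inr]
      · split_ifs <;> fun_prop
      · fun_prop
      · fun_prop))
  set a : V → ℝ := fun v => z (.inr (.inl v))
  set b : V → ℝ := fun v => z (.inr (.inr v))
  set μ : V → V → ℝ := fun x y => z (.inl (x, y))
  have ha : ∀ x, 0 ≤ a x := fun x => (h0 _).1
  have hb : ∀ x, b x ≤ k := fun x => (h0 _).2
  have hμ : ∀ x y, 0 ≤ μ x y := fun x y => (h0 _).1
  have o1 : ∀ x, b x < k → n ≤ ∑ y, μ x y := fun x h => le_of_not_gt fun h' =>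
    h.ne (h1 (.inr (.inr x)) (sub_pos.mpr h'))
  have o2 : ∀ x, 0 < b x → ∑ y, μ x y ≤ n := fun x h => le_of_not_gt fun h' =>
    h.ne' (h2 (.inr (.inr x)) (sub_neg.mpr h'))
  have i1 : ∀ y, a y < k → ∑ x, μ x y ≤ n + 1 := fun y h => le_of_not_gt fun h' =>
    h.ne (h1 (.inr (.inl y)) (sub_pos.mpr h'))
  have i2 : ∀ y, 0 < a y → n + 1 ≤ ∑ x, μ x y := fun y h => le_of_not_gt fun h' =>
    h.ne' (h2 (.inr (.inl y)) (sub_neg.mpr h'))
  have full : ∀ x y, n + 1 ≤ μ x y → b x ≤ 0 := fun x y h => le_of_not_gt fun h' => by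
    have := single_le_sum (f := μ x) (fun y _ => hμ x y) (mem_univ y)
    linarith [o2 x h']
  have g1 : ∀ x y, g a b x y ≤ 0 := fun x y => le_of_not_gt fun h => by
    have h3 := full x y (h1 (.inl (x, y)) h).ge
    simp only [g] at h
    split_ifs at h <;> linarith [ha x, ha y, min_le_left (b x) (b y)]
  have g2 : ∀ x y, 0 < μ x y → 0 ≤ g a b x y := fun x y h => le_of_not_gt fun h' =>
    h.ne' (h2 (.inl (x, y)) h')
  have ne : ∀ x y, H x y → y ≠ x := fun x y h e => hi x (e ▸ h)
  have one : ∀ x, b x ≤ a x + 1 := fun x => by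
    have := g1 x x
    simp only [g, if_true] at this
    linarith
  have hpar : ∀ x y, par y = some x → b x ≤ a y := fun x y h => by
    have := g1 x y
    simp only [g, if_neg (ne x y (hp x y h)), if_pos h] at this
    linarith
  have mono : ∀ y, a y ≤ b y := fun y => le_of_not_gt fun h => by
    have hy : 0 < a y := lt_of_le_of_lt (h0 (.inr (.inr y))).1 h
    have h3 : ∀ x, 0 < μ x y → par y = some x ∧ a y ≤ b x := fun x hx => by
      have := g2 x y hx
      simp only [g] at this
      split_ifs at this with e1 e2 e3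
      · subst e1; linarith
      · exact ⟨e2, by linarith⟩
      · linarith [min_le_right (b x) (b y)]
      · linarith
    obtain ⟨p, -, hp0⟩ := exists_ne_zero_of_sum_ne_zero
      (ne_of_gt (lt_of_lt_of_le (by linarith) (i2 y hy)))
    have h4 := h3 p (lt_of_le_of_ne (hμ p y) hp0.symm)
    have h5 : ∑ x, μ x y = μ p y := sum_eq_single p (fun x _ hx => by_contra fun e =>
      hx (Option.some.inj ((h3 x (lt_of_le_of_ne (hμ x y) (Ne.symm e))).1.symm.trans h4.1)))
      fun e => absurd (mem_univ p) e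
    linarith [full p y (h5 ▸ i2 y hy), h4.2]
  refine ⟨a, b, μ, fun x => ⟨ha x, mono x, one x, hb x⟩, hpar, fun x y h hy => ?_, hμ,
    fun x y h => ?_, o1, o2, i1, i2⟩
  · by_cases e : par y = some x
    · exact hpar x y e
    · have := g1 x y
      simp only [g, if_neg (ne x y h), if_neg e, if_pos h] at this
      rcases min_cases (b x) (b y) with ⟨e1, -⟩ | ⟨e1, -⟩ <;> linarith
  · have := g2 x y h
    simp only [g] at this
    split_ifs at this with e1 e2 e3
    · exact Or.inr ⟨e1, by linarith [one x]⟩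
    · exact Or.inl ⟨hp x y e2, by linarith⟩
    · exact Or.inl ⟨e3, by linarith [min_le_left (b x) (b y)]⟩
    · linarith

/-- Integer potentials together with a successor map. -/
theorem exists_succ {V : Type} [Fintype V] (H : V → V → Prop) (par : V → Option V)
    (hp : ∀ x y, par y = some x → H x y) (hi : ∀ x, ¬ H x x) (k : ℕ) :
    ∃ (a b : V → ℤ) (σ : V → V), (∀ x, 0 ≤ a x ∧ a x ≤ b x ∧ b x ≤ a x + 1 ∧ b x ≤ k) ∧
      (∀ x y, par y = some x → b x ≤ a y) ∧ (∀ x y, H x y → a y < b y → b x ≤ a y) ∧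
      Function.Bijective σ ∧ ∀ x, (H x (σ x) ∧ a (σ x) ≤ b x) ∨ (σ x = x ∧ b x = a x + 1) ∨
        (b x = k ∧ a (σ x) = 0) := by
  classical
  obtain ⟨a, b, μ, h1, h2, h3, h4, h5, o1, o2, i1, i2⟩ :=
    exists_flow H par hp hi k (Fintype.card V) k.cast_nonneg (Nat.cast_nonneg _)
  have le : ∀ x y, 0 < μ x y → a y ≤ b x := fun x y h => by
    rcases h5 x y h with h | ⟨rfl, h⟩
    exacts [h.2, (h1 y).2.1]
  let t : V → Finset V := fun x => univ.filter fun y => 0 < μ x y ∨ (b x = k ∧ a y = 0)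
  have hall : ∀ s : Finset V, s.card ≤ (s.biUnion t).card := by
    intro s
    set N := s.biUnion t with hN
    have hz : ∀ x ∈ s, ∀ y ∈ Nᶜ, μ x y = 0 := fun x hx y hy => by_contra fun e =>
      mem_compl.mp hy (mem_biUnion.mpr ⟨x, hx, mem_filter.mpr
        ⟨mem_univ _, Or.inl (lt_of_le_of_ne (h4 x y) (Ne.symm e))⟩⟩)
    have hs : (s.card : ℝ) ≤ Fintype.card V := Nat.cast_le.mpr (card_le_univ s)
    by_contra hlt
    have hlt' : (N.card : ℝ) + 1 ≤ s.card := by exact_mod_cast not_le.mp hlt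
    by_cases hk : ∀ x ∈ s, b x < k
    · have e1 : (s.card : ℝ) * Fintype.card V ≤ ∑ x ∈ s, ∑ y ∈ N, μ x y := by
        rw [← nsmul_eq_mul, ← sum_const]
        refine sum_le_sum fun x hx => (o1 x (hk x hx)).trans_eq ?_
        rw [← sum_add_sum_compl N, sum_eq_zero (hz x hx), add_zero]
      have e2 : ∑ y ∈ N, ∑ x ∈ s, μ x y ≤ N.card * ((Fintype.card V : ℝ) + 1) := by
        rw [← nsmul_eq_mul, ← sum_const]
        refine sum_le_sum fun y hy => ?_
        obtain ⟨x, hx, hxy⟩ := mem_biUnion.mp hy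
        rcases (mem_filter.mp hxy).2 with h | h
        · exact (sum_le_sum_of_subset_of_nonneg (subset_univ s) fun x _ _ => h4 x y).trans
            (i1 y ((le x y h).trans_lt (hk x hx)))
        · exact absurd h.1 (hk x hx).ne
      rw [sum_comm] at e2
      nlinarith
    · push Not at hk
      obtain ⟨x0, hx0, hb0⟩ := hk
      have hpos : ∀ y ∈ Nᶜ, 0 < a y := fun y hy => lt_of_le_of_ne (h1 y).1 fun e =>
        mem_compl.mp hy (mem_biUnion.mpr ⟨x0, hx0, mem_filter.mpr
          ⟨mem_univ _, Or.inr ⟨le_antisymm (h1 x0).2.2.2 hb0, e.symm⟩⟩⟩)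
      have e1 : ((Nᶜ).card : ℝ) * (Fintype.card V + 1) ≤ ∑ y ∈ Nᶜ, ∑ x ∈ sᶜ, μ x y := by
        rw [← nsmul_eq_mul, ← sum_const]
        refine sum_le_sum fun y hy => (i2 y (hpos y hy)).trans_eq ?_
        rw [← sum_add_sum_compl s, sum_eq_zero fun x hx => hz x hx y hy, zero_add]
      have e2 : ∑ x ∈ sᶜ, ∑ y ∈ Nᶜ, μ x y ≤ (sᶜ).card * (Fintype.card V : ℝ) := by
        rw [← nsmul_eq_mul, ← sum_const]
        refine sum_le_sum fun x _ => ?_
        by_cases e : ∑ y ∈ Nᶜ, μ x y = 0
        · exact e.trans_le (Nat.cast_nonneg _)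
        · obtain ⟨y, hy, hxy⟩ := exists_ne_zero_of_sum_ne_zero e
          exact (sum_le_sum_of_subset_of_nonneg (subset_univ _) fun y _ _ => h4 x y).trans
            (o2 x ((hpos y hy).trans_le (le x y (lt_of_le_of_ne (h4 x y) hxy.symm))))
      rw [sum_comm] at e2
      have c1 : (N.card : ℝ) + (Nᶜ).card = Fintype.card V := by
        exact_mod_cast card_add_card_compl N
      have c2 : (s.card : ℝ) + (sᶜ).card = Fintype.card V := by
        exact_mod_cast card_add_card_compl s
      have c3 : (0 : ℝ) ≤ (sᶜ).card := Nat.cast_nonneg _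
      have c4 : (0 : ℝ) ≤ Fintype.card V := Nat.cast_nonneg _
      nlinarith
  obtain ⟨σ, hσ, hσt⟩ := (Finset.all_card_le_biUnion_card_iff_exists_injective t).1 hall
  refine ⟨fun x => ⌊a x⌋, fun x => ⌊b x⌋, σ, fun x => ⟨Int.floor_nonneg.mpr (h1 x).1,
    Int.floor_mono (h1 x).2.1, (Int.floor_mono (h1 x).2.2.1).trans_eq (Int.floor_add_one _),
    (Int.floor_mono (h1 x).2.2.2).trans_eq (Int.floor_natCast k)⟩,
    fun x y h => Int.floor_mono (h2 x y h),
    fun x y h hy => Int.floor_mono (h3 x y h (lt_of_not_ge fun e => hy.not_ge (Int.floor_mono e))),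
    Finite.injective_iff_bijective.mp hσ, fun x => ?_⟩
  beta_reduce
  rcases (mem_filter.mp (hσt x)).2 with h | h
  · rcases h5 _ _ h with h | h
    · exact Or.inl ⟨h.1, Int.floor_mono h.2⟩
    · exact Or.inr (Or.inl ⟨h.1, by rw [h.2, Int.floor_add_one]⟩)
  · exact Or.inr (Or.inr ⟨by rw [h.1, Int.floor_natCast], by rw [h.2, Int.floor_zero]⟩)

end Pool.Agent.P.MP_5c5cb0_co
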