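import Pool.Agent.P.MP_5c5cb0_co.Box
import Pool.Agent.P.MP_463344_co.Dual

set_option autoImplicit false

/-! A path partition with an orthogonal colouring. -/

namespace Pool.Agent.P.MP_5c5cb0_co

open Finset

/-- `l` is the list obtained from `y` by following `σ` as long as `c` holds. -/
inductive Pth {V : Type} (σ : V → V) (c : V → Prop) : V → List V → Prop
  | last (y : V) (h : ¬ c y) : Pth σ c y [y]
  | cons (y : V) (l : List V) (h : c y) (hl : Pth σ c (σ y) l) : Pth σ c y (y :: l)

variable {V : Type} {σ : V → V} {c : V → Prop} {lev : V → ℕ}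

theorem Pth.exists [Finite V] (hc : ∀ x, c x → lev x < lev (σ x)) (y : V) : ∃ l, Pth σ c y l := by
  obtain ⟨N, hN⟩ := (Set.finite_range lev).bddAbove
  induction h : N - lev y using Nat.strong_induction_on generalizing y with
  | _ m ih =>
    by_cases hy : c y
    · have h1 := hc y hy
      have h2 : lev (σ y) ≤ N := hN ⟨_, rfl⟩
      obtain ⟨l, hl⟩ := ih _ (by omega) (σ y) rfl
      exact ⟨_, .cons y l hy hl⟩
    · exact ⟨_, .last y hy⟩

theorem Pth.head {y : V} {l : List V} (h : Pth σ c y l) : ∃ m, l = y :: m := by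
  cases h <;> exact ⟨_, rfl⟩

theorem Pth.mem {y : V} {l : List V} (h : Pth σ c y l) : y ∈ l := by
  cases h <;> exact List.mem_cons_self

theorem Pth.chain {r : V → V → Prop} (hr : ∀ x, c x → r x (σ x)) {y : V} {l : List V}
    (h : Pth σ c y l) : l.IsChain r := by
  induction h with
  | last y _ => exact .singleton y
  | cons y l h hl ih =>
    obtain ⟨m, rfl⟩ := hl.head
    exact .cons_cons (hr y h) ih

theorem Pth.nodup (hc : ∀ x, c x → lev x < lev (σ x)) {y : V} {l : List V} (h : Pth σ c y l) :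
    l.Nodup := by
  have : Trans (fun x y => lev x < lev y) (fun x y => lev x < lev y) fun x y => lev x < lev y :=
    ⟨lt_trans⟩
  exact (List.isChain_iff_pairwise.mp (h.chain (r := fun x y => lev x < lev y) hc)).imp
    fun h e => h.ne (congrArg lev e)

theorem Pth.succ {y x : V} {l : List V} (h : Pth σ c y l) (hx : x ∈ l) (hc : c x) : σ x ∈ l := by
  induction h with
  | last y h => exact absurd (List.mem_singleton.mp hx ▸ hc) h
  | cons y l _ hl ih =>
    rcases List.mem_cons.mp hx with rfl | hx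
    exacts [List.mem_cons_of_mem _ hl.mem, List.mem_cons_of_mem _ (ih hx)]

theorem Pth.pred {y v : V} {l : List V} (h : Pth σ c y l) (hv : v ∈ l) :
    v = y ∨ ∃ x ∈ l, c x ∧ σ x = v := by
  induction h with
  | last y h => exact Or.inl (List.mem_singleton.mp hv)
  | cons y l h _ ih =>
    rcases List.mem_cons.mp hv with rfl | hv
    · exact Or.inl rfl
    · rcases ih hv with rfl | ⟨x, hx, h1⟩
      exacts [Or.inr ⟨y, List.mem_cons_self, h, rfl⟩, Or.inr ⟨x, List.mem_cons_of_mem _ hx, h1⟩]

/-- A path whose potentials start below `j` and end above `j` crosses `j` at a vertex. -/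
theorem Pth.cross {a b : V → ℤ} {k j : ℤ} (hσ : Function.Injective σ) (h1 : ∀ x, c x → σ x ≠ x)
    (h2 : ∀ x, c x → a (σ x) ≤ b x) (h3 : ∀ x, ¬ c x → σ x = x ∨ b x = k) (hj : j ≤ k) {y : V}
    {l : List V} (h : Pth σ c y l) (hy : σ y ≠ y) (ha : a y < j) : ∃ v ∈ l, a v < j ∧ j ≤ b v := by
  induction h with
  | last y h => exact ⟨y, List.mem_singleton_self y, ha, ((h3 y h).resolve_left hy).symm ▸ hj⟩
  | cons y l h _ ih =>
    by_cases e : j ≤ b y
    · exact ⟨y, List.mem_cons_self, ha, e⟩
    · obtain ⟨v, hv, h4⟩ := ih (fun e' => h1 y h (hσ e')) ((h2 y h).trans_lt (not_le.mp e))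
      exact ⟨v, List.mem_cons_of_mem _ hv, h4⟩

/-- A path partition and a stable colouring of a set `S` such that every path is a single coloured
vertex or meets every colour. -/
theorem orth [Fintype V] (r : V → V → Prop) (k : ℕ) (hk : 0 < k) :
    ∃ (P : Finset (List V)) (S : Finset V) (col : V → Fin k),
      (∀ l ∈ P, l ≠ [] ∧ l.Nodup ∧ l.IsChain r) ∧ (∀ v, ∃! l, l ∈ P ∧ v ∈ l) ∧
      (∀ u ∈ S, ∀ v ∈ S, u ≠ v → r u v → col u ≠ col v) ∧
      ∀ l ∈ P, (∃ v ∈ S, l = [v]) ∨ ∀ i, ∃ v ∈ l, v ∈ S ∧ col v = i := by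
  classical
  obtain ⟨par, lev, hpar, hfin⟩ := Pool.Agent.P.MP_463344_co.exists_final_forest r
  obtain ⟨a, b, σ, h1, h2, h3, hσ, h4⟩ := exists_succ (fun x y => r x y ∧ lev x < lev y) par
    (fun x y h => ⟨(hpar x y h).1, by have := (hpar x y h).2; omega⟩) (fun x h => h.2.false) k
  let c : V → Prop := fun x => (r x (σ x) ∧ lev x < lev (σ x)) ∧ a (σ x) ≤ b x
  have hc : ∀ x, c x → lev x < lev (σ x) := fun x h => h.1.2
  choose p hp using Pth.exists (σ := σ) hc
  let Hd : Finset V := univ.filter fun y => ∀ x, c x → σ x ≠ y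
  have ex : ∀ v, ∃ y ∈ Hd, v ∈ p y := fun v => by
    induction h : lev v using Nat.strong_induction_on generalizing v with
    | _ m ih =>
      by_cases hv : v ∈ Hd
      · exact ⟨v, hv, (hp v).mem⟩
      · simp only [Hd, mem_filter, mem_univ, true_and, not_forall, not_not] at hv
        obtain ⟨x, hx, rfl⟩ := hv
        obtain ⟨y, hy, hxy⟩ := ih _ (h ▸ hc x hx) x rfl
        exact ⟨y, hy, (hp y).succ hxy hx⟩
  have un : ∀ y ∈ Hd, ∀ y' ∈ Hd, ∀ v, v ∈ p y → v ∈ p y' → y = y' := fun y hy y' hy' v => by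
    induction h : lev v using Nat.strong_induction_on generalizing v with
    | _ m ih =>
      intro hv hv'
      rcases (hp y).pred hv with e | ⟨x, hx, cx, e⟩ <;>
        rcases (hp y').pred hv' with e' | ⟨x', hx', cx', e'⟩
      · exact e.symm.trans e'
      · exact absurd (e'.trans e) ((mem_filter.mp hy).2 x' cx')
      · exact absurd (e.trans e') ((mem_filter.mp hy').2 x cx)
      · obtain rfl := hσ.1 (e.trans e'.symm)
        exact ih _ (h ▸ e ▸ hc x cx) x rfl hx hx'
  have anc : ∀ y x, Relation.TransGen (fun u v => par v = some u) y x → b y ≤ a x := by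
    intro y x h
    induction h with
    | single h => exact h2 _ _ h
    | tail _ h ih => exact ih.trans ((h1 _).2.1.trans (h2 _ _ h))
  let col : V → Fin k := fun x => if h : (a x).toNat < k then ⟨(a x).toNat, h⟩ else ⟨0, hk⟩
  have hcol : ∀ x, a x < b x → ((col x : ℕ) : ℤ) = a x := fun x h => by
    have := h1 x
    have e : (a x).toNat < k := by omega
    simp only [col, dif_pos e]
    omega
  refine ⟨Hd.image p, univ.filter fun x => a x < b x, col, fun l hl => ?_, fun v => ?_,
    fun u hu v hv huv hr e => ?_, fun l hl => ?_⟩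
  · obtain ⟨y, -, rfl⟩ := mem_image.mp hl
    exact ⟨List.ne_nil_of_mem (hp y).mem, (hp y).nodup hc, (hp y).chain fun x h => h.1.1⟩
  · obtain ⟨y, hy, hv⟩ := ex v
    refine ⟨p y, ⟨mem_image_of_mem _ hy, hv⟩, fun l hl => ?_⟩
    obtain ⟨y', hy', rfl⟩ := mem_image.mp hl.1
    rw [un y hy y' hy' v hv hl.2]
  · have hu := (mem_filter.mp hu).2
    have hv := (mem_filter.mp hv).2
    have e1 : a u = a v := by rw [← hcol u hu, ← hcol v hv, e]
    rcases hfin u v hr with h | h
    · have := h3 u v ⟨hr, h⟩ hv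
      omega
    · have := anc v u ((Relation.reflTransGen_iff_eq_or_transGen.mp h).resolve_left huv)
      omega
  · obtain ⟨y, hy, rfl⟩ := mem_image.mp hl
    have ne : ∀ x, c x → σ x ≠ x := fun x h e => (hc x h).ne (congrArg lev e).symm
    obtain ⟨x, rfl⟩ := hσ.2 y
    rcases (h4 x).resolve_left (fun h => (mem_filter.mp hy).2 x h rfl) with h | h
    · refine Or.inl ⟨x, mem_filter.mpr ⟨mem_univ _, by omega⟩, ?_⟩
      have := hp (σ x)
      generalize p (σ x) = l at this
      rw [h.1] at this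
      cases this with
      | last => rfl
      | cons _ _ e => exact absurd h.1 (ne x e)
    · refine Or.inr fun i => ?_
      have hi := i.2
      have : ∃ v ∈ p (σ x), a v < (i : ℕ) + 1 ∧ ((i : ℕ) : ℤ) + 1 ≤ b v := by
        by_cases e : σ (σ x) = σ x
        · have e' := hσ.1 e
          exact ⟨σ x, (hp _).mem, by omega, by rw [e']; omega⟩
        · exact (hp _).cross hσ.1 ne (fun x h => h.2)
            (fun x h => ((h4 x).resolve_left h).imp And.left And.left) (by omega) e (by omega)
      obtain ⟨v, hv, e1, e2⟩ := this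
      have e3 := h1 v
      have e4 := hcol v (by omega)
      exact ⟨v, hv, mem_filter.mpr ⟨mem_univ _, by omega⟩, Fin.ext (by omega)⟩

end Pool.Agent.P.MP_5c5cb0_co
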